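import Pool.Agent.H862.EC.Cor

/-!
# Sharp upper and lower limits of a weighted average of the numbers of points of an elliptic curve

Let `E : y² = x³ + a x + b` be an elliptic curve over `ℚ`, `a, b ∈ ℤ`, of conductor `N`, `f` its newform and
`L(s)` its `L`-function, with the central point `s = 1`. For a prime power `q = p^k` let
`δ(q) = (#E(𝔽_q) - q - 1) log p = -(α_p^k + β_p^k) log p` (for the finitely many bad primes
`δ(p^k) = -a_p^k log p`), and `δ(n) = 0` otherwise. Put

`A(x) = (1/2) (x⁻¹ ∑_{n ≤ x} δ(n) + x ∑_{n > x} δ(n)/n²)`,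
`V = (log N)/2 - log 2π + 1 - γ + ∑ δ(n)/n²`    (`γ` Euler's constant).

Then `limsup A(x) = V` if the Riemann hypothesis for `L` is true, and `limsup A(x) = +∞` if it is false. If it is
true, the logarithmic means of `A` tend to `m = ord_{s=1} L`, and `liminf A(x) ≥ 2m - V`, with equality if and only if
there is no integral linear relation between the positive ordinates of the zeros with an odd sum of the
coefficients. So one explicit number decides the Riemann hypothesis for `L`, and together with the lower limit and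
the mean value also the order of vanishing: for every `r` (for instance the rank of `E(ℚ)`) the Riemann hypothesis,
`m = r` and the absence of odd relations hold together if and only if `limsup A(x) < ∞`, `liminf A(x) ≤ 2r - V` and the
upper limit of the means of `A` is `≥ r`.
-/

set_option autoImplicit false

open MeasureTheory Filter Topology Set Complex Classical CongruenceSubgroup UpperHalfPlane
open scoped MatrixGroups

namespace Pool.Agent.Results.MP_ad1693_nt.SharpExtremes

/-- `#E(𝔽_p)`: the number of points of `y² = x³ + a x + b` modulo `p`, with the point at infinity. -/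
noncomputable def numPoints (a b : ℤ) (p : ℕ) : ℕ :=
  Nat.card {q : ZMod p × ZMod p // q.2 ^ 2 = q.1 ^ 3 + (a : ZMod p) * q.1 + (b : ZMod p)} + 1

/-- `p` is a prime that does not divide `2 Δ`, where `Δ = -4 a³ - 27 b²`. -/
def Good (a b : ℤ) (p : ℕ) : Prop :=
  p.Prime ∧ ¬ ((p : ℤ) ∣ 2 * (-4 * a ^ 3 - 27 * b ^ 2))

/-- The `n`-th Fourier coefficient of `f`. -/
noncomputable def coef {N : ℕ} (f : CuspForm (Gamma0 N : Subgroup (GL (Fin 2) ℝ)) 2) (n : ℕ) : ℂ :=
  (qExpansion 1 f).coeff n

/-- `f ∈ S_2(Γ₀(N))` is the newform of the elliptic curve `E : y² = x³ + a x + b` of conductor `N`: the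
Fourier coefficients `c(n)` of `f` are real with `c(1) = 1`, they satisfy the Hecke relations
`c(mn) = c(m) c(n)` for coprime `m`, `n` and `c(p^(j+2)) = c(p) c(p^(j+1)) - p c(p^j)` (without the last
term if `p ∣ N`), `c(p) = a_p = p + 1 - #E(𝔽_p)` for all primes `p ∤ 2Δ`, `|c(p)| ≤ 2 √p` for all
`p ∤ N` (Hasse), `c(p) = 0, 1, -1` for `p ∣ N`, and `f` is an eigenfunction of the involution of Fricke,
`f(-1/(Nz)) = w N z² f(z)` with `w = 1` or `w = -1`. -/
structure IsNewformOf (a b : ℤ) (N : ℕ) (f : CuspForm (Gamma0 N : Subgroup (GL (Fin 2) ℝ)) 2) :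
    Prop where
  one : coef f 1 = 1
  real : ∀ n, (coef f n).im = 0
  mul : ∀ m n : ℕ, Nat.Coprime m n → coef f (m * n) = coef f m * coef f n
  pow : ∀ p j : ℕ, p.Prime → coef f (p ^ (j + 2)) = coef f p * coef f (p ^ (j + 1)) -
      (if p ∣ N then 0 else (p : ℂ) * coef f (p ^ j))
  points : ∀ p : ℕ, Good a b p → coef f p = (p : ℂ) + 1 - (numPoints a b p : ℂ)
  good : ∀ p : ℕ, p.Prime → ¬ p ∣ N → ‖coef f p‖ ≤ 2 * Real.sqrt p
  bad : ∀ p : ℕ, p.Prime → p ∣ N → coef f p = 0 ∨ coef f p = 1 ∨ coef f p = -1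
  fricke : ∃ w : ℂ, (w = 1 ∨ w = -1) ∧ ∀ z z' : ℍ, (z' : ℂ) = -1 / ((N : ℂ) * (z : ℂ)) →
    f z' = w * (N : ℂ) * (z : ℂ) ^ 2 * f z

/-- the power sums `α^k + β^k` of the roots `α`, `β` of `X² - t X + q` -/
noncomputable def powerSum (t q : ℝ) : ℕ → ℝ
  | 0 => 2
  | 1 => t
  | (k + 2) => t * powerSum t q (k + 1) - q * powerSum t q k

section
variable {N : ℕ} (f : CuspForm (Gamma0 N : Subgroup (GL (Fin 2) ℝ)) 2)

/-- the excess of points: `δ(p^k) = -(α^k + β^k) log p` with the roots of `X² - c(p) X + p`, and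
`δ(p^k) = -c(p)^k log p` for `p ∣ N` (the roots of `X² - c(p) X`); `δ(n) = 0` if `n` is not a prime power. For a
prime `p` of good reduction `α^k + β^k = p^k + 1 - #E(𝔽_{p^k})`, so that `δ(p^k) = (#E(𝔽_{p^k}) - p^k - 1) log p`. -/
noncomputable def excess (n : ℕ) : ℝ :=
  if IsPrimePow n then -(powerSum (coef f n.minFac).re (if n.minFac ∣ N then 0 else (n.minFac : ℝ))
    (n.factorization n.minFac) * Real.log n.minFac) else 0

/-- `A(x) = (1/2) (x⁻¹ ∑_{n ≤ x} δ(n) + x ∑_{n > x} δ(n)/n²)` -/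
noncomputable def average (x : ℝ) : ℝ :=
  1 / 2 * (1 / x * (∑ n ∈ Finset.Icc 1 ⌊x⌋₊, excess f n) +
    x * ∑' n : ℕ, if x < n then excess f n / (n : ℝ) ^ 2 else 0)

/-- the mean of `A(e^y)` over `0 ≤ y ≤ Y`, that is `(log X)⁻¹ ∫_1^X A(x) dx/x` for `X = e^Y` -/
noncomputable def mean (Y : ℝ) : ℝ := (1 / Y) * ∫ y in (0 : ℝ)..Y, average f (Real.exp y)

/-- `V = (log N)/2 - log 2π + 1 - γ + ∑ δ(n)/n²` -/
noncomputable def V : ℝ :=
  Real.log N / 2 - Real.log (2 * Real.pi) + 1 - Real.eulerMascheroniConstant + ∑' n : ℕ, excess f n / (n : ℝ) ^ 2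

end

section
variable {N : ℕ} [NeZero N] (f : CuspForm (Gamma0 N : Subgroup (GL (Fin 2) ℝ)) 2)

/-- the `L`-function of `f` (Mathlib): the entire function which is `∑ c(n) n^(-s)` for `Re s > 2` -/
noncomputable def L (s : ℂ) : ℂ := ModularForm.L (k := 2) (by norm_num) f s

/-- the Riemann hypothesis for `L(s)`: the zeros with `Re s > 0` have `Re s = 1` -/
def RiemannHyp : Prop := ∀ s : ℂ, 0 < s.re → L f s = 0 → s.re = 1

/-- `m = ord_{s=1} L(s)` -/
noncomputable def order : ℕ := analyticOrderNatAt (L f) 1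

/-- the positive ordinates of the zeros on the line `Re s = 1` -/
def ordinates : Set ℝ := {t : ℝ | 0 < t ∧ L f (1 + t * Complex.I) = 0}

/-- an odd relation: integers `n_γ`, almost all zero, with `∑ n_γ γ = 0` and `∑ n_γ` odd -/
def OddRelation : Prop := ∃ n : ordinates f →₀ ℤ, (n.sum fun t k => (k : ℝ) * (t : ℝ)) = 0 ∧ Odd (n.sum fun _ k => k)

/-- the upper limit of `A(x)` for `x → ∞`, in `[-∞, ∞]` -/
noncomputable def upper : EReal := limsup (fun x : ℝ => (average f x : EReal)) atTop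

/-- the lower limit of `A(x)` for `x → ∞`, in `[-∞, ∞]` -/
noncomputable def lower : EReal := liminf (fun x : ℝ => (average f x : EReal)) atTop

end

/-! ### proofs -/

open Pool.Agent.H862.EC
open Pool.Agent.N804.LI (EM)

theorem hecke {a b : ℤ} {N : ℕ} {f : CuspForm (Gamma0 N : Subgroup (GL (Fin 2) ℝ)) 2}
    (hf : IsNewformOf a b N f) : Pool.Agent.TH941.Hecke f where
  one := hf.one
  real := hf.real
  mul := hf.mul
  pow := hf.pow
  good := hf.good
  bad := fun p hp h => by
    rcases hf.bad p hp h with h1 | h1 | h1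
    · have h2 : ‖coef f p‖ ≤ 1 := by rw [h1]; simp
      exact h2
    · have h2 : ‖coef f p‖ ≤ 1 := by rw [h1]; simp
      exact h2
    · have h2 : ‖coef f p‖ ≤ 1 := by rw [h1]; simp
      exact h2

theorem func_eq {a b : ℤ} {N : ℕ} [NeZero N] {f : CuspForm (Gamma0 N : Subgroup (GL (Fin 2) ℝ)) 2}
    (hf : IsNewformOf a b N f) : ∃ ε : ℂ, ‖ε‖ = 1 ∧ ∀ s : ℂ, Pool.Agent.NH98.RT.Xi.xi f (-s) =
      ε * Pool.Agent.NH98.RT.Xi.xi f s := by
  obtain ⟨w, hw, h⟩ := hf.fricke
  refine ⟨-w, ?_, Pool.Agent.NH98.RT.Xi.xi_fe f h⟩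
  rcases hw with rfl | rfl <;> simp

section
variable {a b : ℤ} {N : ℕ} [NeZero N] {f : CuspForm (Gamma0 N : Subgroup (GL (Fin 2) ℝ)) 2}

theorem excess_eq (hf : IsNewformOf a b N f) (n : ℕ) : excess f n = dl f n :=
  (dl_eq (hecke hf) (P := powerSum) (fun _ _ => rfl) (fun _ _ => rfl) (fun _ _ _ => rfl) n).symm

theorem average_eq (hf : IsNewformOf a b N f) (y : ℝ) : average f (Real.exp y) = PA f y := by
  rw [PA_eq (hecke hf)]
  unfold average
  simp only [excess_eq hf]

theorem upper_eq (hf : IsNewformOf a b N f) : upper f = limsup (fun y : ℝ => (PA f y : EReal)) atTop := by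
  have h1 : (fun y : ℝ => (PA f y : EReal)) = (fun x : ℝ => (average f x : EReal)) ∘ Real.exp := by
    funext y
    simp only [Function.comp_apply]
    rw [average_eq hf]
  have h2 : limsup ((fun x : ℝ => (average f x : EReal)) ∘ Real.exp) atTop =
      limsup (fun x : ℝ => (average f x : EReal)) (map Real.exp atTop) := limsup_comp _ _ _
  rw [h1, h2, Real.map_exp_atTop]
  rfl

theorem lower_eq (hf : IsNewformOf a b N f) : lower f = liminf (fun y : ℝ => (PA f y : EReal)) atTop := by
  have h1 : (fun y : ℝ => (PA f y : EReal)) = (fun x : ℝ => (average f x : EReal)) ∘ Real.exp := by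
    funext y
    simp only [Function.comp_apply]
    rw [average_eq hf]
  have h2 : liminf ((fun x : ℝ => (average f x : EReal)) ∘ Real.exp) atTop =
      liminf (fun x : ℝ => (average f x : EReal)) (map Real.exp atTop) := liminf_comp _ _ _
  rw [h1, h2, Real.map_exp_atTop]
  rfl

theorem V_eq' (hf : IsNewformOf a b N f) (h : RiemannHyp f) : ∃ G : ℝ, V f = order f + G ∧
    G = amp (fun k : ZX f => (k : ℂ)) (fun k => Pool.Agent.H862.EL.od (Pool.Agent.NH98.RT.Xi.xi f) k) A1 := by
  obtain ⟨ε, hε, hfe⟩ := func_eq hf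
  refine ⟨_, ?_, rfl⟩
  have h1 := V_eq (hecke hf) hε hfe h
  unfold V
  simp only [excess_eq hf]
  exact h1.symm

theorem mean_lim (hf : IsNewformOf a b N f) (h : RiemannHyp f) :
    Tendsto (mean f) atTop (𝓝 (order f : ℝ)) := by
  obtain ⟨ε, hε, hfe⟩ := func_eq hf
  have h1 := main_mean (hecke hf) hε hfe h
  refine h1.congr fun Y => ?_
  unfold mean
  simp only [average_eq hf]

theorem upper_line (hf : IsNewformOf a b N f) (h : RiemannHyp f) : upper f = ((V f : ℝ) : EReal) := by
  obtain ⟨ε, hε, hfe⟩ := func_eq hf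
  obtain ⟨G, hG, hG2⟩ := V_eq' hf h
  have hl := (rh_iff (hecke hf) hfe).1 h
  rw [upper_eq hf]
  have hm := m0_eq (f := f)
  refine limsup_eq (fun δ hδ => ?_) fun δ hδ => ?_
  · have := line_upper (fsys (hecke hf) hε hfe) hl hδ
    rw [hm, ← hG2] at this
    rw [hG]
    exact this
  · have := line_upper' (fsys (hecke hf) hε hfe) hl hδ
    rw [hm, ← hG2] at this
    rw [hG]
    exact this

theorem upper_off (hf : IsNewformOf a b N f) (h : ¬ RiemannHyp f) : upper f = ⊤ := by
  obtain ⟨ε, hε, hfe⟩ := func_eq hf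
  rw [upper_eq hf]
  exact limsup_top (off_large (fsys (hecke hf) hε hfe) fun hl => h ((rh_iff (hecke hf) hfe).2 hl))

theorem lower_line (hf : IsNewformOf a b N f) (h : RiemannHyp f) : (((2 * order f - V f : ℝ)) : EReal) ≤ lower f ∧
    (lower f = ((2 * order f - V f : ℝ) : EReal) ↔ ¬ OddRelation f) := by
  obtain ⟨ε, hε, hfe⟩ := func_eq hf
  obtain ⟨G, hG, hG2⟩ := V_eq' hf h
  have hl := (rh_iff (hecke hf) hfe).1 h
  rw [lower_eq hf]
  have hm := m0_eq (f := f)
  have e : (2 * order f - V f : ℝ) = order f - G := by rw [hG]; ring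
  rw [e]
  have h1 : ∀ δ : ℝ, 0 < δ → ∀ᶠ y in atTop, (order f : ℝ) - G - δ ≤ PA f y := fun δ hδ => by
    have := line_lower (fsys (hecke hf) hε hfe) hl hδ
    rw [hm, ← hG2] at this
    exact this
  refine ⟨liminf_ge h1, ?_⟩
  rw [liminf_eq_iff h1]
  have h2 := line_lower_iff (fsys (hecke hf) hε hfe) hl
  rw [hm, ← hG2, odd_iff hl] at h2
  exact h2

end

/-- **Theorem.** Let `E : y² = x³ + a x + b` be an elliptic curve over `ℚ` with the newform `f` of level `N`,
`m = ord_{s=1} L(s)`.
(1) If the Riemann hypothesis for `L(s)` is true then `limsup A(x) = V`, otherwise `limsup A(x) = +∞`. So it is true if and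
only if `limsup A(x) = V`, and if and only if `limsup A(x) ≤ V`, and if and only if `A` is bounded above.
(2) If it is true, the means of `A` tend to `m`, and `liminf A(x) ≥ 2m - V`, with equality if and only if there is no odd
relation between the positive ordinates.
(3) For every natural `r`: the Riemann hypothesis, `m = r` and the absence of odd relations hold together if and only
if `limsup A(x) < ∞`, `liminf A(x) ≤ 2r - V` and the upper limit of the means of `A` is `≥ r`. -/
theorem result (a b : ℤ) (_ : 4 * a ^ 3 + 27 * b ^ 2 ≠ 0) (N : ℕ) [NeZero N]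
    (f : CuspForm (Gamma0 N : Subgroup (GL (Fin 2) ℝ)) 2) (hf : IsNewformOf a b N f) :
    (RiemannHyp f → upper f = ((V f : ℝ) : EReal)) ∧ (¬ RiemannHyp f → upper f = ⊤) ∧
    (RiemannHyp f ↔ upper f = ((V f : ℝ) : EReal)) ∧ (RiemannHyp f ↔ upper f ≤ ((V f : ℝ) : EReal)) ∧
    (RiemannHyp f ↔ upper f < ⊤) ∧
    (RiemannHyp f → Tendsto (mean f) atTop (𝓝 (order f : ℝ)) ∧
      ((2 * order f - V f : ℝ) : EReal) ≤ lower f ∧
      (lower f = ((2 * order f - V f : ℝ) : EReal) ↔ ¬ OddRelation f)) ∧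
    ∀ r : ℕ, (RiemannHyp f ∧ order f = r ∧ ¬ OddRelation f ↔
      upper f < ⊤ ∧ lower f ≤ ((2 * r - V f : ℝ) : EReal) ∧ ∀ δ : ℝ, 0 < δ → ∃ᶠ Y in atTop, r - δ ≤ mean f Y) := by
  have h1 : RiemannHyp f ↔ upper f = ((V f : ℝ) : EReal) := by
    refine ⟨upper_line hf, fun h => ?_⟩
    by_contra hcon
    rw [upper_off hf hcon] at h
    exact EReal.coe_ne_top _ h.symm
  have h2 : RiemannHyp f ↔ upper f < ⊤ := by
    constructor
    · intro h
      rw [upper_line hf h]
      exact EReal.coe_lt_top _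
    · intro h
      by_contra hcon
      rw [upper_off hf hcon] at h
      exact lt_irrefl _ h
  have h3 : RiemannHyp f ↔ upper f ≤ ((V f : ℝ) : EReal) := by
    constructor
    · intro h
      exact (upper_line hf h).le
    · intro h
      exact h2.2 (h.trans_lt (EReal.coe_lt_top _))
  refine ⟨upper_line hf, upper_off hf, h1, h3, h2, fun h => ⟨mean_lim hf h, lower_line hf h⟩, fun r => ?_⟩
  constructor
  · rintro ⟨h4, h5, h6⟩
    refine ⟨h2.1 h4, ?_, fun δ hδ => ?_⟩
    · rw [(lower_line hf h4).2.2 h6, h5]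
    · have h7 := mean_lim hf h4
      rw [h5] at h7
      exact ((h7.eventually (lt_mem_nhds (show (r : ℝ) - δ < r by linarith))).mono fun Y hY => le_of_lt hY).frequently
  · rintro ⟨h4, h5, h6⟩
    have h7 := h2.2 h4
    obtain ⟨h8, h9⟩ := lower_line hf h7
    have h10 : (2 * order f - V f : ℝ) ≤ 2 * r - V f := by exact_mod_cast h8.trans h5
    have h11 : (r : ℝ) ≤ order f := by
      by_contra hcon
      push Not at hcon
      obtain ⟨Y, h12, h13⟩ := ((h6 ((r - order f) / 2) (by linarith)).and_eventually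
        ((mean_lim hf h7).eventually (gt_mem_nhds (show (order f : ℝ) < (r + order f) / 2 by linarith)))).exists
      linarith
    have h14 : (order f : ℝ) = r := le_antisymm (by linarith) h11
    have h15 : order f = r := by exact_mod_cast h14
    refine ⟨h7, h15, h9.1 (le_antisymm ?_ h8)⟩
    rw [h14]
    exact h5

end Pool.Agent.Results.MP_ad1693_nt.SharpExtremes
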